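import Pool.Agent.helper64.PC.SpecR

/-!
# pc:CLR, the level function of a wire

Helper file for MP_069684_lc (project pc).
-/

set_option autoImplicit false

namespace Pool.Agent.PC

open Finset Pool.Agent.PB

theorem CLR (hRCE : RCE_stmt) (hCDB : CDB_stmt) : CLR_stmt := by
  classical
  intro P Om _ _ _ PF nu t M Φ T β hβ hT
  have key : ∀ T : Finset ℝ, (∀ τ ∈ T, β ≤ τ) →
      ∃ D : Finset P → ℝ, (∀ B, D B = β ∨ D B ∈ T) ∧ (∀ B, ¬ (PF B ∧ B.card ≤ 2 * t) → D B = β) ∧
        ct (fun w => ∃ B, B ⊆ nu w ∧ Φ w < D B) * M ≤
          (univ.filter fun B => D B ≠ β).card * Fintype.card Om ∧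
        ∀ τ ∈ T, ∀ A : Finset P, PF A → A.card ≤ 2 * t →
          ct (fun w => A ⊆ nu w ∧ Φ w < τ ∧ ¬ ∃ B, B ⊆ nu w ∧ τ ≤ D B) * M ≤ Fintype.card Om → τ ≤ D A := by
    intro T
    induction T using Finset.induction_on_min with
    | empty =>
      intro _
      refine ⟨fun _ => β, fun B => Or.inl rfl, fun B _ => rfl, ?_, ?_⟩
      · rw [ct_false]
        · simp
        · rintro w ⟨B, _, h⟩
          exact absurd (hβ w) (not_le.2 h)
      · intro τ hτ
        exact absurd hτ (Finset.notMem_empty _)
    | insert a s hlt ih =>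
      intro hs
      obtain ⟨D, h1, h2, h3, h4⟩ := ih fun τ hτ => hs τ (Finset.mem_insert_of_mem hτ)
      have hβa : β ≤ a := hs a (Finset.mem_insert_self _ _)
      rcases hβa.eq_or_lt with he | hlt'
      · refine ⟨D, ?_, h2, h3, ?_⟩
        · intro B
          rcases h1 B with h | h
          · exact Or.inl h
          · exact Or.inr (Finset.mem_insert_of_mem h)
        · intro τ hτ A hA hA' hc
          rcases Finset.mem_insert.1 hτ with h | h
          · rw [h, ← he]
            rcases h1 A with h' | h'
            · exact h'.ge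
            · exact he.le.trans (hlt _ h').le
          · exact h4 τ h A hA hA' hc
      · -- the sets of level above `a`
        set D₀ : Finset (Finset P) := univ.filter fun B => D B ≠ β with hD₀
        have m0 : ∀ B, B ∈ D₀ ↔ D B ≠ β := by
          intro B
          rw [hD₀, Finset.mem_filter]
          exact ⟨fun h => h.2, fun h => ⟨Finset.mem_univ _, h⟩⟩
        have m1 : ∀ B ∈ D₀, a < D B := by
          intro B hB
          rcases h1 B with h | h
          · exact absurd h ((m0 B).1 hB)
          · exact hlt _ h
        have m2 : ∀ B ∈ D₀, PF B ∧ B.card ≤ 2 * t := by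
          intro B hB
          by_contra hc
          exact (m0 B).1 hB (h2 B hc)
        obtain ⟨D₁, g1, g2, g3, g4⟩ := hRCE P Om PF nu t M (fun w => a ≤ Φ w) D₀ m2
        set D' : Finset P → ℝ := fun B => if B ∈ D₀ then D B else if B ∈ D₁ then a else β with hD'
        have e1 : ∀ B, B ∈ D₀ → D' B = D B := fun B hB => by
          rw [hD']
          exact if_pos hB
        have e2 : ∀ B, B ∉ D₀ → B ∈ D₁ → D' B = a := fun B hB hB' => by
          show (if B ∈ D₀ then D B else if B ∈ D₁ then a else β) = a
          rw [if_neg hB, if_pos hB']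
        have e3 : ∀ B, B ∉ D₁ → D' B = β := fun B hB => by
          show (if B ∈ D₀ then D B else if B ∈ D₁ then a else β) = β
          rw [if_neg (fun h => hB (g1 h)), if_neg hB]
        have f1 : ∀ B, a ≤ D' B ↔ B ∈ D₁ := by
          intro B
          by_cases c1 : B ∈ D₁
          · by_cases c0 : B ∈ D₀
            · rw [e1 B c0]
              exact ⟨fun _ => c1, fun _ => (m1 B c0).le⟩
            · rw [e2 B c0 c1]
              exact ⟨fun _ => c1, fun _ => le_refl _⟩
          · rw [e3 B c1]
            exact ⟨fun h => absurd h (not_le.2 hlt'), fun h => absurd h c1⟩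
        have f2 : ∀ τ ∈ s, ∀ B, τ ≤ D' B ↔ τ ≤ D B := by
          intro τ hτ B
          have haτ : a < τ := hlt τ hτ
          by_cases c0 : B ∈ D₀
          · rw [e1 B c0]
          · have hDB : D B = β := by
              by_contra hc
              exact c0 ((m0 B).2 hc)
            have hD'B : D' B ≤ a := by
              by_cases c1 : B ∈ D₁
              · rw [e2 B c0 c1]
              · rw [e3 B c1]
                exact hlt'.le
            constructor
            · intro h
              exact absurd (h.trans hD'B) (not_le.2 haτ)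
            · intro h
              rw [hDB] at h
              exact absurd (h.trans hlt'.le) (not_le.2 haτ)
        refine ⟨D', ?_, ?_, ?_, ?_⟩
        · intro B
          by_cases c1 : B ∈ D₁
          · by_cases c0 : B ∈ D₀
            · rw [e1 B c0]
              rcases h1 B with h | h
              · exact Or.inl h
              · exact Or.inr (Finset.mem_insert_of_mem h)
            · rw [e2 B c0 c1]
              exact Or.inr (Finset.mem_insert_self _ _)
          · exact Or.inl (e3 B c1)
        · intro B hB
          exact e3 B fun h => hB (g2 B h)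
        · have c1 : ct (fun w => ∃ B, B ⊆ nu w ∧ Φ w < D' B) ≤
              ct (fun w => ∃ B, B ⊆ nu w ∧ Φ w < D B) +
              ct (fun w => (∃ B ∈ D₁, B ⊆ nu w) ∧ ¬ (a ≤ Φ w) ∧ ¬ ∃ B ∈ D₀, B ⊆ nu w) := by
            refine le_trans (ct_mono ?_) (ct_or _ _)
            rintro w ⟨B, hB, hlt⟩
            by_cases hB1 : B ∈ D₁
            · by_cases hB0 : B ∈ D₀
              · rw [e1 B hB0] at hlt
                exact Or.inl ⟨B, hB, hlt⟩
              · rw [e2 B hB0 hB1] at hlt
                by_cases hex : ∃ B' ∈ D₀, B' ⊆ nu w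
                · obtain ⟨B', hB', hB''⟩ := hex
                  exact Or.inl ⟨B', hB'', hlt.trans (m1 B' hB')⟩
                · exact Or.inr ⟨⟨B, hB1, hB⟩, not_le.2 hlt, hex⟩
            · rw [e3 B hB1] at hlt
              exact absurd (hβ w) (not_le.2 hlt)
          have c2 : (univ.filter fun B => D' B ≠ β) = D₁ := by
            ext B
            rw [Finset.mem_filter]
            constructor
            · rintro ⟨_, h⟩
              by_contra hc
              exact h (e3 B hc)
            · intro h
              refine ⟨Finset.mem_univ _, ?_⟩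
              have := (f1 B).2 h
              intro hc
              rw [hc] at this
              exact absurd this (not_le.2 hlt')
          rw [c2]
          have c3 : D₁.card = D₀.card + (D₁ \ D₀).card := by
            rw [add_comm, Finset.card_sdiff_add_card_eq_card g1]
          calc ct (fun w => ∃ B, B ⊆ nu w ∧ Φ w < D' B) * M
              ≤ (ct (fun w => ∃ B, B ⊆ nu w ∧ Φ w < D B) +
              ct (fun w => (∃ B ∈ D₁, B ⊆ nu w) ∧ ¬ (a ≤ Φ w) ∧ ¬ ∃ B ∈ D₀, B ⊆ nu w)) * M :=
                Nat.mul_le_mul_right _ c1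
            _ = ct (fun w => ∃ B, B ⊆ nu w ∧ Φ w < D B) * M +
              ct (fun w => (∃ B ∈ D₁, B ⊆ nu w) ∧ ¬ (a ≤ Φ w) ∧ ¬ ∃ B ∈ D₀, B ⊆ nu w) * M := by
                rw [add_mul]
            _ ≤ D₀.card * Fintype.card Om + (D₁ \ D₀).card * Fintype.card Om := add_le_add h3 g3
            _ = D₁.card * Fintype.card Om := by rw [c3, add_mul]
        · intro τ hτ A hA hA' hc
          rcases Finset.mem_insert.1 hτ with h | h
          · subst h
            rw [f1]
            refine g4 A hA hA' (le_trans (Nat.mul_le_mul_right _ (ct_mono ?_)) hc)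
            rintro w ⟨hw1, hw2, hw3⟩
            refine ⟨hw1, not_le.1 hw2, ?_⟩
            rintro ⟨B, hB, hB'⟩
            exact hw3 ⟨B, (f1 B).1 hB', hB⟩
          · rw [f2 τ h]
            refine h4 τ h A hA hA' (le_trans (Nat.mul_le_mul_right _ (ct_mono ?_)) hc)
            rintro w ⟨hw1, hw2, hw3⟩
            refine ⟨hw1, hw2, ?_⟩
            rintro ⟨B, hB, hB'⟩
            exact hw3 ⟨B, hB, (f2 τ h B).1 hB'⟩
  obtain ⟨D, h1, h2, h3, h4⟩ := key T hT
  refine ⟨D, h1, h2, h3.trans (Nat.mul_le_mul_right _ (hCDB P _ _ ?_)), h4⟩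
  intro B hB
  by_contra hc
  exact (Finset.mem_filter.1 hB).2 (h2 B fun h => hc h.2)

end Pool.Agent.PC
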