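import Pool.Agent.helper64.PC.SpecE

/-!
# pc:QEM, the question over an infinite basis, case of a gate that is not self-dual

Helper file for MP_069684_lc (project pc).
-/

set_option autoImplicit false

namespace Pool.Agent.PC

open Pool.Agent.PB

theorem QEM (hFWM : FWM_stmt) (hBCM : BCM_stmt) (hCLA : CLA_stmt) (hNPA : NPA_stmt) : QEM_stmt := by
  intro G m hG hm hT hW hS
  constructor
  · intro h A hA
    rcases hCLA G hT hW hS with h1 | h1
    · exact (hBCM G m A hG hm).1 (h _ (h1 A) (hNPA A hA).1)
    · exact (hBCM G m A hG hm).2.1 (h _ (h1 A) (hNPA A hA).2)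
  · intro h A hSl hA
    exact hFWM G m A hT hW hSl (h A hA)

end Pool.Agent.PC
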