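import Pool.Agent.helper51.PC.Spec

set_option autoImplicit false

namespace Pool.Agent.PC

open MvPolynomial

universe u

/-- `x_(i - l)` -/
noncomputable def SGK_Y (k : Type u) [Field k] (n : ℕ) (i : Fin n) (l : ℕ) : AA k n :=
  if l ≤ (i : ℕ) then X ⟨(i : ℕ) - l, by omega⟩ else 0

theorem SGK_sgX (k : Type u) [Field k] (n d : ℕ) (i : Fin n) :
    sg k n d (X i) = X i + if h : 0 < (i : ℕ) ∧ (i : ℕ) < d then
      X ⟨(i : ℕ) - 1, by omega⟩ else 0 := by
  unfold sg
  rw [aeval_X]

theorem SGK_sgY (k : Type u) [Field k] (n d : ℕ) (i : Fin n) (hi : (i : ℕ) < d) (l : ℕ) :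
    sg k n d (SGK_Y k n i l) - SGK_Y k n i l = SGK_Y k n i (l + 1) := by
  unfold SGK_Y
  by_cases h : l ≤ (i : ℕ)
  · rw [if_pos h, SGK_sgX]
    by_cases h1 : l + 1 ≤ (i : ℕ)
    · rw [if_pos h1, dif_pos (by simp only; omega)]
      simp only [add_sub_cancel_left]
      congr 1
    · rw [if_neg h1, dif_neg (by simp only; omega)]
      ring
  · rw [if_neg h, if_neg (by omega), map_zero, sub_zero]

theorem SGK_pow (k : Type u) [Field k] (n d p : ℕ) (hN : Num n d p) (hc : CharP k p) (f : AA k n) :
    (sg k n d)^[p] f = f := by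
  obtain ⟨hp, h4, hdn, hdp, _⟩ := hN
  have : Fact p.Prime := ⟨hp⟩
  have : CharP (Module.End k (AA k n)) p :=
    charP_of_injective_algebraMap (FaithfulSMul.algebraMap_injective k (Module.End k (AA k n))) p
  have key : ∀ i : Fin n, ((sg k n d) ^ p : AA k n →ₐ[k] AA k n) (X i) = X i := by
    intro i
    rw [AlgHom.coe_pow]
    by_cases hi : (i : ℕ) < d
    · set S : Module.End k (AA k n) := (sg k n d).toLinearMap with hS
      set N : Module.End k (AA k n) := S - 1 with hNN
      have hNp : ∀ l : ℕ, (N ^ l) (X i) = SGK_Y k n i l := by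
        intro l
        induction l with
        | zero => simp [SGK_Y]
        | succ l ih =>
          rw [pow_succ', Module.End.mul_apply, ih, ← SGK_sgY k n d i hi l]
          rfl
      have h1 : S ^ p = N ^ p + 1 := by
        have h2 : S = N + 1 := by rw [hNN]; abel
        rw [h2, add_pow_char_of_commute p (Commute.one_right N), one_pow]
      have h3 : (S ^ p) (X i) = X i := by
        rw [h1, LinearMap.add_apply, hNp, SGK_Y, if_neg (by omega), zero_add]
        rfl
      have h4 : ∀ (j : ℕ) (g : AA k n), (S ^ j) g = (sg k n d)^[j] g := by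
        intro j
        induction j with
        | zero => intro g; simp
        | succ j ih =>
          intro g
          rw [pow_succ, Module.End.mul_apply, ih, Function.iterate_succ_apply]
          rfl
      rw [← h4, h3]
    · have h5 : sg k n d (X i) = X i := by
        rw [SGK_sgX, dif_neg (by omega), add_zero]
      exact Function.iterate_fixed h5 p
  have h6 : ((sg k n d) ^ p : AA k n →ₐ[k] AA k n) = AlgHom.id k (AA k n) := by
    apply MvPolynomial.algHom_ext
    intro i
    rw [key i]
    rfl
  have h7 := DFunLike.congr_fun h6 f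
  rw [AlgHom.coe_pow] at h7
  exact h7

theorem SGK : SGK_stmt.{u} := by
  intro k _ n d p hN hc
  have hit := SGK_pow k n d p hN hc
  have hp : 0 < p := hN.1.pos
  have hinj : Function.Injective (sg k n d) := by
    intro f g h
    have h1 := hit f
    have h2 := hit g
    obtain ⟨m, rfl⟩ : ∃ m, p = m + 1 := ⟨p - 1, by omega⟩
    rw [Function.iterate_succ_apply] at h1 h2
    rw [← h1, ← h2, h]
  have hle : nonZeroDivisors (AA k n) ≤
      (nonZeroDivisors (AA k n)).comap ((sg k n d : AA k n →ₐ[k] AA k n) : AA k n →+* AA k n) := by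
    intro f hf
    rw [Submonoid.mem_comap, mem_nonZeroDivisors_iff_ne_zero]
    intro h0
    exact nonZeroDivisors.ne_zero hf (hinj (by rw [map_zero]; exact h0))
  refine ⟨hit, IsLocalization.map (KK k n) ((sg k n d : AA k n →ₐ[k] AA k n) : AA k n →+* AA k n) hle,
    fun f => IsLocalization.map_eq hle f, ?_, ?_⟩
  · intro y
    set s : KK k n →+* KK k n :=
      IsLocalization.map (KK k n) ((sg k n d : AA k n →ₐ[k] AA k n) : AA k n →+* AA k n) hle with hs
    have h1 : ∀ (j : ℕ) (f : AA k n), s^[j] (algebraMap (AA k n) (KK k n) f) =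
        algebraMap (AA k n) (KK k n) ((sg k n d)^[j] f) := by
      intro j
      induction j with
      | zero => intro f; rfl
      | succ j ih =>
        intro f
        rw [Function.iterate_succ_apply, Function.iterate_succ_apply, ← ih]
        congr 1
        exact IsLocalization.map_eq hle f
    have h2 : ∀ (j : ℕ) (f g : AA k n),
        s^[j] (algebraMap (AA k n) (KK k n) f / algebraMap (AA k n) (KK k n) g) =
        s^[j] (algebraMap (AA k n) (KK k n) f) / s^[j] (algebraMap (AA k n) (KK k n) g) := by
      intro j f g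
      rw [← RingHom.coe_pow, map_div₀]
    obtain ⟨f, g, -, rfl⟩ := IsFractionRing.div_surjective (A := AA k n) y
    rw [h2, h1, h1, hit, hit]
  · intro c
    rw [IsScalarTower.algebraMap_apply k (AA k n) (KK k n), IsLocalization.map_eq]
    congr 1
    exact (sg k n d).commutes c

end Pool.Agent.PC
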